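import Mathlib
import Pool.Agent.H29.DC6

set_option autoImplicit false

namespace Pool.Agent.Results.MP_ef82d1_co.Order

open Finset Pool.Agent.H29.DC

/-- largest weight of a directed cut -/
noncomputable def mac {V : Type} [Fintype V] [DecidableEq V] (w : V → V → ℝ) : ℝ :=
  ⨆ X : Finset V, ∑ u ∈ X, ∑ v ∈ Xᶜ, w u v

/-- `A` is the arc relation, `w` the weights (zero off the arcs) -/
noncomputable def c (ν : ℕ) : ℝ :=
  sSup {c : ℝ | 0 ≤ c ∧ ∀ (V : Type) [Fintype V] [DecidableEq V] (A : V → V → Prop)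
    (w : V → V → ℝ), (∀ u v, 0 ≤ w u v) → (∀ u v, ¬ A u v → w u v = 0) →
    (∀ v, ¬ Relation.TransGen A v v) →
    IsGreatest {n | ∃ l : List V, l.Nodup ∧ l.IsChain A ∧ l.length = n} ν →
    c * ∑ u, ∑ v, w u v ≤ mac w}

theorem lev {V : Type} (A : V → V → Prop) (ac : ∀ v, ¬ Relation.TransGen A v v) (ν : ℕ)
    (h : ∀ l : List V, l.Nodup → l.IsChain A → l.length ≤ ν) :
    ∃ f : V → ℕ, (∀ v, f v < ν) ∧ ∀ u v, A u v → f u < f v := by
  classical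
  set P : V → ℕ → Prop := fun v n =>
    ∃ l : List V, (v :: l).Nodup ∧ (v :: l).IsChain A ∧ (v :: l).length = n with hP
  have h1 : ∀ v, P v 1 := fun v => ⟨[], by simp, by simp, rfl⟩
  have h2 : ∀ v n, P v n → n ≤ ν := fun v n ⟨l, a, b, e⟩ => e ▸ h _ a b
  have h3 : ∀ v, 1 ≤ Nat.findGreatest (P v) ν := fun v =>
    Nat.le_findGreatest (h2 v 1 (h1 v)) (h1 v)
  refine ⟨fun v => ν - Nat.findGreatest (P v) ν, fun v => ?_, fun u v a => ?_⟩
  · have := h3 v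
    have := h2 v 1 (h1 v)
    beta_reduce
    omega
  · obtain ⟨l, b1, b2, b3⟩ := Nat.findGreatest_spec (h2 v 1 (h1 v)) (h1 v)
    have ch : (u :: v :: l).IsChain A := List.isChain_cons_cons.mpr ⟨a, b2⟩
    have pw := List.isChain_iff_pairwise.mp (ch.imp fun _ _ => Relation.TransGen.single)
    have : P u (Nat.findGreatest (P v) ν + 1) := ⟨v :: l, List.nodup_cons.mpr
      ⟨fun k => ac u (List.rel_of_pairwise_cons pw k), b1⟩, ch, by simp [← b3]⟩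
    have q1 : Nat.findGreatest (P v) ν + 1 ≤ ν := h2 _ _ this
    have q2 : Nat.findGreatest (P v) ν + 1 ≤ Nat.findGreatest (P u) ν := Nat.le_findGreatest q1 this
    have := Nat.findGreatest_le (P := P u) ν
    beta_reduce
    omega

theorem result (ν : ℕ) (hν : 64 ≤ ν) :
    1 / 4 + 1 / 256 * (ν : ℝ) ^ (-(2 / 3) : ℝ) ≤ c ν ∧
      c ν ≤ 1 / 4 + 174 * (ν : ℝ) ^ (-(2 / 3) : ℝ) := by
  obtain ⟨r, r1, r2⟩ : ∃ r : ℕ, r ^ 3 ≤ ν ∧ ν < (r + 1) ^ 3 :=
    ⟨Nat.nthRoot 3 ν, Nat.pow_nthRoot_le (Or.inl three_ne_zero),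
      Nat.lt_pow_nthRoot_add_one three_ne_zero ν⟩
  have r4 : 4 ≤ r := by
    by_contra k
    have := Nat.pow_le_pow_left (show r + 1 ≤ 4 by omega) 3
    omega
  have r3 : ν < 8 * r ^ 3 := by
    have := Nat.pow_le_pow_left (show r + 1 ≤ 2 * r by omega) 3
    rw [mul_pow] at this
    omega
  have ν0 : (64 : ℝ) ≤ ν := by exact_mod_cast hν
  have rR : (4 : ℝ) ≤ r := by exact_mod_cast r4
  have r1' : (r : ℝ) ^ 3 ≤ ν := by exact_mod_cast r1
  have r3' : (ν : ℝ) ≤ 8 * r ^ 3 := by exact_mod_cast r3.le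
  set z := (ν : ℝ) ^ (-(2 / 3) : ℝ) with hz
  have z0 : 0 < z := by positivity
  have z3 : z ^ 3 * ν ^ 2 = 1 := by
    rw [hz, ← Real.rpow_natCast, ← Real.rpow_mul (by positivity), ← Real.rpow_natCast,
      ← Real.rpow_add (by positivity)]
    norm_num
  have z1 : z * r ^ 2 ≤ 1 := le_of_pow_le_pow_left₀ (n := 3) (by norm_num) zero_le_one (by
    calc (z * r ^ 2) ^ 3 = z ^ 3 * (r ^ 3) ^ 2 := by ring
      _ ≤ z ^ 3 * ν ^ 2 := by gcongr
      _ = _ := by rw [z3]; norm_num)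
  have z2 : 1 ≤ 4 * z * r ^ 2 := le_of_pow_le_pow_left₀ (n := 3) (by norm_num) (by positivity) (by
    calc (1 : ℝ) ^ 3 = z ^ 3 * ν ^ 2 := by rw [z3]; norm_num
      _ ≤ z ^ 3 * (8 * r ^ 3) ^ 2 := by gcongr
      _ = _ := by ring)
  have z4 : (r : ℝ) ^ 4 ≤ z * ν ^ 2 := le_of_pow_le_pow_left₀ (n := 3) (by norm_num)
    (by positivity) (by
    calc ((r : ℝ) ^ 4) ^ 3 = ((r : ℝ) ^ 3) ^ 4 := by ring
      _ ≤ (ν : ℝ) ^ 4 := by gcongr
      _ = _ := by linear_combination -(ν : ℝ) ^ 4 * z3)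
  have mem : ∀ (V : Type) [Fintype V] [DecidableEq V] (A : V → V → Prop)
      (w : V → V → ℝ), (∀ u v, 0 ≤ w u v) → (∀ u v, ¬ A u v → w u v = 0) →
      (∀ v, ¬ Relation.TransGen A v v) →
      IsGreatest {n | ∃ l : List V, l.Nodup ∧ l.IsChain A ∧ l.length = n} ν →
      (1 / 4 + 1 / 256 * z) * ∑ u, ∑ v, w u v ≤ mac w := fun V _ _ A w w0 wA ac hg => by
    obtain ⟨f, f1, f2⟩ := lev A ac ν fun l a b => hg.2 ⟨l, a, b, rfl⟩
    obtain ⟨X, hX⟩ := levels w w0 f (fun u v h => f2 u v (by by_contra k; exact h (wA u v k))) r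
      (fun v => (f1 v).trans r3) (by omega)
    refine le_trans (mul_le_mul_of_nonneg_right ?_
      (sum_nonneg fun u _ => sum_nonneg fun v _ => w0 u v)) (hX.trans
      (le_ciSup (f := fun X : Finset V => ∑ u ∈ X, ∑ v ∈ Xᶜ, w u v)
      (Set.finite_range _).bddAbove X))
    rw [add_le_add_iff_left, le_div_iff₀ (by positivity)]
    linarith
  suffices ub : 1 / 4 + 174 * z ∈ upperBounds _ from
    ⟨le_csSup ⟨_, ub⟩ ⟨by positivity, mem⟩, csSup_le ⟨_, by positivity, mem⟩ ub⟩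
  rintro a ⟨-, ha⟩
  have k4 : 4 * r ^ 2 ≤ ν := le_trans (by nlinarith) r1
  obtain ⟨D, D1, D2⟩ : ∃ D : ℕ, 3 * D + 2 * r ^ 2 ≤ ν ∧ ν ≤ 7 * D :=
    ⟨(ν - 2 * r ^ 2) / 3, by omega, by omega⟩
  obtain ⟨K, L, K0, hL, hT, hc⟩ := weighted ν (r ^ 2) D D1
  have a1 := ha (Ico (0 : ℤ) ν) (fun u v => u.1 < v.1)
    (fun u v => if u.1 < v.1 then K u v * (1 : ℤ → ℝ) u * (1 : ℤ → ℝ) v else 0)
    (fun u v => by split_ifs <;> simp [K0]) (fun u v h => if_neg h)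
    (fun v h => by
      have : ∀ a b : Ico (0 : ℤ) ν, Relation.TransGen (fun u v => u.1 < v.1) a b → a.1 < b.1 :=
        fun a b h => by
        induction h with
        | single h => exact h
        | tail _ h ih => exact ih.trans h
      exact (this v v h).false)
    ⟨⟨univ.sort (· ≤ ·), sort_nodup _ _, (List.Pairwise.isChain
      (sortedLT_sort univ).pairwise), by simp⟩,
      fun n ⟨l, h, _, e⟩ => by simpa [e] using h.length_le_card⟩
  have a2 : mac (fun u v : Ico (0 : ℤ) ν =>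
      if u.1 < v.1 then K u v * (1 : ℤ → ℝ) u * (1 : ℤ → ℝ) v else 0) ≤ _ :=
    ciSup_le (transfer _ K 1 (fun _ => Or.inr rfl) _ hc)
  rw [tot_eq] at a1
  have a3 := a1.trans a2
  rw [hT] at a3
  push_cast at a3 hL
  have D2' : (ν : ℝ) ≤ 7 * D := by exact_mod_cast D2
  have k0 : (16 : ℝ) ≤ r ^ 2 := by nlinarith
  have e4 : (r : ℝ) ^ 4 = (r ^ 2) ^ 2 := by ring
  rw [e4] at z4
  generalize (r : ℝ) ^ 2 = k at *
  have D0 : (0 : ℝ) < D := by linarith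
  have L0 : 0 < L := lt_of_lt_of_le (by positivity) hL
  have b1 : L * k ≤ 4 * z * (L * k ^ 2) := by nlinarith [mul_pos L0 (by linarith : 0 < k)]
  have b2 : ν * k ^ 5 ≤ 343 * z * (L * k ^ 2) :=
    calc ν * k ^ 5 = ν * k ^ 2 * k ^ 3 := by ring
      _ ≤ ν * (z * ν ^ 2) * k ^ 3 := by gcongr
      _ = z * ν ^ 3 * k ^ 3 := by ring
      _ ≤ z * (7 * D) ^ 3 * k ^ 3 := by gcongr
      _ = 343 * z * (k * D ^ 3 * k ^ 2) := by ring
      _ ≤ _ := by gcongr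
  have b3 : L * k ^ 2 ≤ 4 * (L * (k * k - k) / 2) := by
    nlinarith [mul_pos L0 (by nlinarith : 0 < k * k - 2 * k)]
  have T0 : 0 < L * (k * k - k) / 2 := by nlinarith [mul_pos L0 (by positivity : 0 < k ^ 2)]
  generalize L * (k * k - k) / 2 = T at *
  refine le_of_mul_le_mul_right ?_ T0
  nlinarith [mul_le_mul_of_nonneg_left b3 z0.le, mul_pos z0 T0]

end Pool.Agent.Results.MP_ef82d1_co.Order
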